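import Mathlib

set_option autoImplicit false

namespace Pool.Agent.Results.MP_36ad39_gt.AscoliAlephNotCM

open Set Topology Filter TopologicalSpace

universe u v w

/-- `N` is a k-network of `X`: for every compact `K` and open `U ⊇ K` there is a finite `F ⊆ N` with
`K ⊆ ⋃ F ⊆ U`. -/
def IsKNetwork {X : Type w} [TopologicalSpace X] (N : Set (Set X)) : Prop :=
  ∀ K U : Set X, IsCompact K → IsOpen U → K ⊆ U →
    ∃ F : Set (Set X), F ⊆ N ∧ F.Finite ∧ K ⊆ ⋃₀ F ∧ ⋃₀ F ⊆ U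

/-- ℵ-space: a regular Hausdorff space with a σ-locally finite k-network. -/
def IsAlephSpace (X : Type w) [TopologicalSpace X] : Prop :=
  T3Space X ∧ ∃ N : ℕ → Set (Set X),
    (∀ n, LocallyFinite (fun s : N n => (s : Set X))) ∧ IsKNetwork (⋃ n, N n)

/-- Ascoli space: every compact subset `K` of `C_k(X, ℝ)` (compact-open topology) is evenly
continuous, that is, the evaluation map `K × X → ℝ` is continuous. -/
def IsAscoliSpace (X : Type w) [TopologicalSpace X] : Prop :=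
  ∀ K : Set C(X, ℝ), IsCompact K → Continuous fun p : K × X => (p.1 : C(X, ℝ)) p.2

/-- `C[M]`-space: a space homeomorphic to a subspace of `C_k(Z, Y)` (compact-open topology) for some
separable metrizable `Z` and metrizable `Y`. -/
def IsCMSpace (X : Type w) [TopologicalSpace X] : Prop :=
  ∃ (Z : Type u) (Y : Type v) (_ : TopologicalSpace Z) (_ : TopologicalSpace Y),
    MetrizableSpace Z ∧ SeparableSpace Z ∧ MetrizableSpace Y ∧ ∃ e : X → C(Z, Y), IsEmbedding e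

/-- The example: one point `inf`, the points `mid a k` and the isolated points `iso a k m`. -/
inductive Pt : Type
  | inf : Pt
  | mid : (ℕ → ℝ) → ℕ → Pt
  | iso : (ℕ → ℝ) → ℕ → ℕ → Pt

open Pt

instance : TopologicalSpace Pt where
  IsOpen U := (inf ∈ U → ∃ n, ∀ a k, n ≤ k → mid a k ∈ U) ∧
    (∀ a k, mid a k ∈ U → ∃ m, ∀ j, m ≤ j → iso a k j ∈ U)
  isOpen_univ := ⟨fun _ => ⟨0, fun _ _ _ => mem_univ _⟩, fun _ _ _ => ⟨0, fun _ _ => mem_univ _⟩⟩
  isOpen_inter := by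
    rintro s t ⟨hs1, hs2⟩ ⟨ht1, ht2⟩
    refine ⟨fun h => ?_, fun a k h => ?_⟩
    · obtain ⟨n, hn⟩ := hs1 h.1
      obtain ⟨m, hm⟩ := ht1 h.2
      exact ⟨max n m, fun a k hk => ⟨hn a k (le_trans (le_max_left _ _) hk),
        hm a k (le_trans (le_max_right _ _) hk)⟩⟩
    · obtain ⟨n, hn⟩ := hs2 a k h.1
      obtain ⟨m, hm⟩ := ht2 a k h.2
      exact ⟨max n m, fun j hj => ⟨hn j (le_trans (le_max_left _ _) hj),
        hm j (le_trans (le_max_right _ _) hj)⟩⟩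
  isOpen_sUnion := by
    intro S hS
    refine ⟨fun h => ?_, fun a k h => ?_⟩
    · obtain ⟨s, hs, h⟩ := h
      obtain ⟨n, hn⟩ := (hS s hs).1 h
      exact ⟨n, fun a k hk => ⟨s, hs, hn a k hk⟩⟩
    · obtain ⟨s, hs, h⟩ := h
      obtain ⟨n, hn⟩ := (hS s hs).2 a k h
      exact ⟨n, fun j hj => ⟨s, hs, hn j hj⟩⟩

lemma isOpen_iff (U : Set Pt) : IsOpen U ↔ (inf ∈ U → ∃ n, ∀ a k, n ≤ k → mid a k ∈ U) ∧
    (∀ a k, mid a k ∈ U → ∃ m, ∀ j, m ≤ j → iso a k j ∈ U) := Iff.rfl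

/-- basic neighbourhoods of `mid a k` -/
def Cset (a : ℕ → ℝ) (k m : ℕ) : Set Pt := {x | x = mid a k ∨ ∃ j, m ≤ j ∧ x = iso a k j}

/-- basic neighbourhoods of `inf` -/
def Uset (n : ℕ) (f : (ℕ → ℝ) → ℕ → ℕ) : Set Pt :=
  {x | x = inf ∨ (∃ a k, n ≤ k ∧ x = mid a k) ∨ ∃ a k j, n ≤ k ∧ f a k ≤ j ∧ x = iso a k j}

/-- the non-isolated points near `inf` -/
def Dset (n : ℕ) : Set Pt := {x | x = inf ∨ ∃ a k, n ≤ k ∧ x = mid a k}

lemma isClopen_Cset (a : ℕ → ℝ) (k m : ℕ) : IsClopen (Cset a k m) := by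
  constructor
  · rw [← isOpen_compl_iff, isOpen_iff]
    refine ⟨fun _ => ⟨k + 1, fun b l hl => ?_⟩, fun b l hbl => ⟨0, fun j _ => ?_⟩⟩
    · simp only [Cset, mem_compl_iff, mem_ofPred_eq, mid.injEq, not_or]
      refine ⟨?_, by simp⟩
      rintro ⟨_, rfl⟩
      omega
    · simp only [Cset, mem_compl_iff, mem_ofPred_eq, mid.injEq, not_or, iso.injEq, reduceCtorEq] at hbl ⊢
      refine ⟨by simp, ?_⟩
      rintro ⟨_, _, rfl, rfl, _⟩
      exact hbl.1 ⟨rfl, rfl⟩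
  · rw [isOpen_iff]
    refine ⟨fun h => ?_, fun b l hbl => ?_⟩
    · simp [Cset] at h
    · simp only [Cset, mem_ofPred_eq, mid.injEq, reduceCtorEq, and_false, exists_false, or_false] at hbl
      obtain ⟨rfl, rfl⟩ := hbl
      exact ⟨m, fun j hj => Or.inr ⟨j, hj, rfl⟩⟩

lemma isClopen_Uset (n : ℕ) (f : (ℕ → ℝ) → ℕ → ℕ) : IsClopen (Uset n f) := by
  constructor
  · rw [← isOpen_compl_iff, isOpen_iff]
    refine ⟨fun h => absurd (Or.inl rfl) h, fun b l hbl => ⟨0, fun j _ => ?_⟩⟩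
    simp only [Uset, mem_compl_iff, mem_ofPred_eq, mid.injEq, iso.injEq, reduceCtorEq,
      false_or, not_exists, not_and, or_false, and_false,
      exists_false] at hbl ⊢
    rintro a k m hk _ rfl rfl
    exact absurd rfl (hbl _ _ hk rfl)
  · rw [isOpen_iff]
    refine ⟨fun _ => ⟨n, fun a k hk => Or.inr (Or.inl ⟨a, k, hk, rfl⟩)⟩, fun b l hbl => ?_⟩
    simp only [Uset, mem_ofPred_eq, mid.injEq, reduceCtorEq, and_false, exists_false, or_false,
      false_or] at hbl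
    obtain ⟨a, k, hk, rfl, rfl⟩ := hbl
    exact ⟨f b l, fun j hj => Or.inr (Or.inr ⟨b, l, j, hk, hj, rfl⟩)⟩

lemma isClosed_singleton' (x : Pt) : IsClosed ({x} : Set Pt) := by
  rw [← isOpen_compl_iff, isOpen_iff]
  rcases x with _ | ⟨a, k⟩ | ⟨a, k, j⟩
  · exact ⟨fun h => absurd rfl h, fun a k _ => ⟨0, fun j _ => by simp⟩⟩
  · refine ⟨fun _ => ⟨k + 1, fun b l hl => ?_⟩, fun b l _ => ⟨0, fun j _ => by simp⟩⟩
    simp only [mem_compl_iff, mem_singleton_iff, mid.injEq]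
    rintro ⟨_, rfl⟩
    omega
  · refine ⟨fun _ => ⟨0, fun b l _ => by simp⟩, fun b l _ => ⟨j + 1, fun i hi => ?_⟩⟩
    simp only [mem_compl_iff, mem_singleton_iff, iso.injEq]
    rintro ⟨_, _, rfl⟩
    omega

lemma isOpen_iso (a : ℕ → ℝ) (k j : ℕ) : IsOpen ({iso a k j} : Set Pt) := by
  rw [isOpen_iff]
  exact ⟨fun h => by simp at h, fun b l h => by simp at h⟩

lemma exists_Uset_subset (U : Set Pt) (hU : IsOpen U) (h : inf ∈ U) :
    ∃ n f, Uset n f ⊆ U := by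
  obtain ⟨n, hn⟩ := ((isOpen_iff U).1 hU).1 h
  have h2 : ∀ a k, ∃ m, n ≤ k → ∀ j, m ≤ j → iso a k j ∈ U := by
    intro a k
    by_cases hk : n ≤ k
    · obtain ⟨m, hm⟩ := ((isOpen_iff U).1 hU).2 a k (hn a k hk)
      exact ⟨m, fun _ => hm⟩
    · exact ⟨0, fun h => absurd h hk⟩
  choose f hf using h2
  refine ⟨n, f, ?_⟩
  rintro x (rfl | ⟨a, k, hk, rfl⟩ | ⟨a, k, j, hk, hj, rfl⟩)
  · exact h
  · exact hn a k hk
  · exact hf a k hk j hj

lemma exists_Cset_subset (U : Set Pt) (hU : IsOpen U) (a : ℕ → ℝ) (k : ℕ) (h : mid a k ∈ U) :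
    ∃ m, Cset a k m ⊆ U := by
  obtain ⟨m, hm⟩ := ((isOpen_iff U).1 hU).2 a k h
  refine ⟨m, ?_⟩
  rintro x (rfl | ⟨j, hj, rfl⟩)
  · exact h
  · exact hm j hj

instance : T1Space Pt := ⟨isClosed_singleton'⟩

instance : RegularSpace Pt := by
  apply RegularSpace.of_exists_mem_nhds_isClosed_subset
  intro x s hs
  obtain ⟨U, hUs, hU, hxU⟩ := mem_nhds_iff.1 hs
  rcases x with _ | ⟨a, k⟩ | ⟨a, k, j⟩
  · obtain ⟨n, f, h⟩ := exists_Uset_subset U hU hxU
    exact ⟨Uset n f, (isClopen_Uset n f).2.mem_nhds (Or.inl rfl), (isClopen_Uset n f).1, h.trans hUs⟩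
  · obtain ⟨m, h⟩ := exists_Cset_subset U hU a k hxU
    exact ⟨Cset a k m, (isClopen_Cset a k m).2.mem_nhds (Or.inl rfl), (isClopen_Cset a k m).1,
      h.trans hUs⟩
  · exact ⟨{iso a k j}, (isOpen_iso a k j).mem_nhds rfl, isClosed_singleton' _,
      singleton_subset_iff.2 (hUs hxU)⟩

instance : T3Space Pt where

/-- a closed set of points, each isolated relative to the set, meets every compact set in a finite set -/
lemma finite_inter (K S : Set Pt) (hK : IsCompact K) (hS : IsClosed S)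
    (hd : ∀ x ∈ S, ∃ V, IsOpen V ∧ V ∩ S = {x}) : (K ∩ S).Finite := by
  have h1 : IsCompact (K ∩ S) := hK.inter_right hS
  choose! V hV1 hV2 using hd
  obtain ⟨t, ht, hcov⟩ := h1.elim_nhds_subcover V (fun x hx => (hV1 x hx.2).mem_nhds (by
    have : x ∈ V x ∩ S := by rw [hV2 x hx.2]; rfl
    exact this.1))
  refine (Finset.finite_toSet t).subset ?_
  intro x hx
  obtain ⟨y, hy, hxy⟩ := mem_iUnion₂.1 (hcov hx)
  have : x ∈ V y ∩ S := ⟨hxy, hx.2⟩
  rw [hV2 y (ht y hy).2] at this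
  rw [mem_singleton_iff.1 this]
  exact hy

lemma finite_iso (K : Set Pt) (hK : IsCompact K) :
    {q : (ℕ → ℝ) × ℕ | ∃ j, iso q.1 q.2 j ∈ K}.Finite := by
  classical
  let E : Set ((ℕ → ℝ) × ℕ) := {q | ∃ j, iso q.1 q.2 j ∈ K}
  have : ∀ q : (ℕ → ℝ) × ℕ, ∃ j, q ∈ E → iso q.1 q.2 j ∈ K := by
    intro q
    by_cases h : q ∈ E
    · obtain ⟨j, hj⟩ := h
      exact ⟨j, fun _ => hj⟩
    · exact ⟨0, fun h' => absurd h' h⟩
  choose j hj using this
  let S : Set Pt := (fun q : (ℕ → ℝ) × ℕ => iso q.1 q.2 (j q)) '' E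
  have hSK : S ⊆ K := by
    rintro _ ⟨q, hq, rfl⟩
    exact hj q hq
  have hScl : IsClosed S := by
    rw [← isOpen_compl_iff, isOpen_iff]
    refine ⟨fun _ => ⟨0, fun a k _ => ?_⟩, fun a k _ => ⟨j (a, k) + 1, fun i hi => ?_⟩⟩
    · rintro ⟨q, _, hq⟩
      simp at hq
    · rintro ⟨q, _, hq⟩
      simp only [iso.injEq] at hq
      obtain ⟨h1, h2, h3⟩ := hq
      have : q = (a, k) := Prod.ext h1 h2
      rw [this] at h3
      omega
  have hfin : (K ∩ S).Finite := by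
    refine finite_inter K S hK hScl ?_
    rintro _ ⟨q, hq, rfl⟩
    refine ⟨{iso q.1 q.2 (j q)}, isOpen_iso _ _ _, ?_⟩
    apply Subset.antisymm
    · exact inter_subset_left
    · rintro _ rfl
      exact ⟨rfl, q, hq, rfl⟩
  have hinj : Set.InjOn (fun q : (ℕ → ℝ) × ℕ => iso q.1 q.2 (j q)) E := by
    rintro q _ r _ hqr
    simp only [iso.injEq] at hqr
    exact Prod.ext hqr.1 hqr.2.1
  have h2 : S.Finite := by
    rwa [inter_eq_self_of_subset_right hSK] at hfin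
  exact h2.of_finite_image hinj

lemma finite_mid (K : Set Pt) (hK : IsCompact K) (n : ℕ) :
    {q : (ℕ → ℝ) × ℕ | q.2 < n ∧ mid q.1 q.2 ∈ K}.Finite := by
  let S : Set Pt := (fun q : (ℕ → ℝ) × ℕ => mid q.1 q.2) '' {q | q.2 < n}
  have hScl : IsClosed S := by
    rw [← isOpen_compl_iff, isOpen_iff]
    refine ⟨fun _ => ⟨n, fun a k hk => ?_⟩, fun a k _ => ⟨0, fun i hi => ?_⟩⟩
    · rintro ⟨q, hq, hq'⟩
      simp only [mid.injEq] at hq'
      have : q.2 < n := hq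
      omega
    · rintro ⟨q, _, hq⟩
      simp at hq
  have hfin : (K ∩ S).Finite := by
    refine finite_inter K S hK hScl ?_
    rintro _ ⟨q, hq, rfl⟩
    refine ⟨Cset q.1 q.2 0, (isClopen_Cset _ _ _).2, ?_⟩
    apply Subset.antisymm
    · rintro _ ⟨h1, r, hr, rfl⟩
      rcases h1 with h1 | ⟨j, _, h1⟩
      · exact h1
      · simp at h1
    · rintro _ rfl
      exact ⟨Or.inl rfl, q, hq, rfl⟩
  have : {q : (ℕ → ℝ) × ℕ | q.2 < n ∧ mid q.1 q.2 ∈ K} ⊆
      (fun q : (ℕ → ℝ) × ℕ => mid q.1 q.2) ⁻¹' (K ∩ S) := by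
    rintro q ⟨h1, h2⟩
    exact ⟨h2, q, h1, rfl⟩
  refine (hfin.preimage ?_).subset this
  rintro q _ r _ hqr
  simp only [mid.injEq] at hqr
  exact Prod.ext hqr.1 hqr.2

/-- the k-network -/
def Net (k m : ℕ) : Set (Set Pt) :=
  {Dset k} ∪ (range fun a => Cset a k m) ∪ (range fun a => {iso a k m})

lemma net_locallyFinite (k m : ℕ) : LocallyFinite (fun s : Net k m => (s : Set Pt)) := by
  intro x
  have key : ∀ V : Set Pt, V ∈ 𝓝 x → ∀ a : ℕ → ℝ,
      (∀ b, (Cset b k m ∩ V).Nonempty → b = a) → (∀ b, (({iso b k m} : Set Pt) ∩ V).Nonempty → b = a) →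
      ∃ t ∈ 𝓝 x, {i : Net k m | ((i : Set Pt) ∩ t).Nonempty}.Finite := by
    intro V hV a h1 h2
    refine ⟨V, hV, ?_⟩
    have hfin : ({Dset k, Cset a k m, {iso a k m}} : Set (Set Pt)).Finite := by
      exact Set.toFinite _
    refine (hfin.preimage (Subtype.val_injective.injOn)).subset ?_
    rintro ⟨s, hs⟩ hsV
    rcases hs with (hs | ⟨b, rfl⟩) | ⟨b, rfl⟩
    · exact Or.inl hs
    · rw [h1 b hsV]
      exact Or.inr (Or.inl rfl)
    · rw [h2 b hsV]
      exact Or.inr (Or.inr rfl)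
  rcases x with _ | ⟨a, l⟩ | ⟨a, l, j⟩
  · refine key (Uset (k + 1) fun _ _ => 0) ((isClopen_Uset _ _).2.mem_nhds (Or.inl rfl)) 0 ?_ ?_
    · rintro b ⟨x, hx1, hx2⟩
      exfalso
      rcases hx1 with rfl | ⟨j, hj, rfl⟩
      · simp only [Uset, mem_ofPred_eq, mid.injEq, reduceCtorEq, and_false, exists_false, or_false,
          false_or] at hx2
        obtain ⟨_, k', hk, _, rfl⟩ := hx2
        omega
      · simp only [Uset, mem_ofPred_eq, iso.injEq, reduceCtorEq, and_false, exists_false,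
          false_or] at hx2
        obtain ⟨_, k', _, hk, _, _, rfl, _⟩ := hx2
        omega
    · rintro b ⟨x, rfl, hx2⟩
      exfalso
      simp only [Uset, mem_ofPred_eq, iso.injEq, reduceCtorEq, and_false, exists_false,
          false_or] at hx2
      obtain ⟨_, k', _, hk, _, _, rfl, _⟩ := hx2
      omega
  · refine key (Cset a l 0) ((isClopen_Cset _ _ _).2.mem_nhds (Or.inl rfl)) a ?_ ?_
    · rintro b ⟨x, hx1, hx2⟩
      rcases hx1 with rfl | ⟨j, hj, rfl⟩ <;> rcases hx2 with hx2 | ⟨i, hi, hx2⟩ <;> simp at hx2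
      · exact hx2.1
      · exact hx2.1
    · rintro b ⟨x, rfl, hx2⟩
      rcases hx2 with hx2 | ⟨i, hi, hx2⟩ <;> simp at hx2
      exact hx2.1
  · refine key {iso a l j} ((isOpen_iso _ _ _).mem_nhds rfl) a ?_ ?_
    · rintro b ⟨x, hx1, rfl⟩
      rcases hx1 with hx1 | ⟨i, hi, hx1⟩ <;> simp at hx1
      exact hx1.1.symm
    · rintro b ⟨x, hx1, rfl⟩
      simp at hx1
      exact hx1.1.symm

lemma net_isKNetwork : IsKNetwork (⋃ n : ℕ, Net n.unpair.1 n.unpair.2) := by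
  classical
  intro K U hK hU hKU
  have hKcl : IsClosed K := hK.isClosed
  -- choice of `n`
  obtain ⟨n, hn1, hn2⟩ : ∃ n, (inf ∈ K → Dset n ⊆ U) ∧ (inf ∉ K → ∀ a k, n ≤ k → mid a k ∉ K) := by
    by_cases h : inf ∈ K
    · obtain ⟨n, hn⟩ := ((isOpen_iff U).1 hU).1 (hKU h)
      refine ⟨n, fun _ => ?_, fun h' => absurd h h'⟩
      rintro x (rfl | ⟨a, k, hk, rfl⟩)
      · exact hKU h
      · exact hn a k hk
    · obtain ⟨n, hn⟩ := ((isOpen_iff Kᶜ).1 hKcl.isOpen_compl).1 h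
      exact ⟨n, fun h' => absurd h' h, fun _ => hn⟩
  -- choice of `m`
  have hm : ∀ a k, ∃ m, (mid a k ∈ K → Cset a k m ⊆ U) ∧
      (mid a k ∉ K → ∀ j, m ≤ j → iso a k j ∉ K) := by
    intro a k
    by_cases h : mid a k ∈ K
    · obtain ⟨m, hm⟩ := exists_Cset_subset U hU a k (hKU h)
      exact ⟨m, fun _ => hm, fun h' => absurd h h'⟩
    · obtain ⟨m, hm⟩ := ((isOpen_iff Kᶜ).1 hKcl.isOpen_compl).2 a k h
      exact ⟨m, fun h' => absurd h' h, fun _ => hm⟩
  choose m hm1 hm2 using hm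
  let E : Set ((ℕ → ℝ) × ℕ) := {q | ∃ j, iso q.1 q.2 j ∈ K} ∪ {q | q.2 < n ∧ mid q.1 q.2 ∈ K}
  have hE : E.Finite := (finite_iso K hK).union (finite_mid K hK n)
  let F1 : Set (Set Pt) := if inf ∈ K then {Dset n} else ∅
  let F2 : Set (Set Pt) := (fun q : (ℕ → ℝ) × ℕ => Cset q.1 q.2 (m q.1 q.2)) ''
    {q | q ∈ E ∧ mid q.1 q.2 ∈ K}
  let F3 : Set (Set Pt) := ⋃ q ∈ E, (fun j => ({iso q.1 q.2 j} : Set Pt)) ''
    {j | j < m q.1 q.2 ∧ iso q.1 q.2 j ∈ K}
  have hmem : ∀ (k l : ℕ) (s : Set Pt), s ∈ Net k l → s ∈ ⋃ n : ℕ, Net n.unpair.1 n.unpair.2 := by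
    intro k l s hs
    refine mem_iUnion.2 ⟨Nat.pair k l, ?_⟩
    simpa using hs
  refine ⟨F1 ∪ F2 ∪ F3, ?_, ?_, ?_, ?_⟩
  · rintro s ((hs | ⟨q, _, rfl⟩) | hs)
    · by_cases h : inf ∈ K
      · simp only [F1, h, if_true] at hs
        exact hmem n 0 s (Or.inl (Or.inl hs))
      · simp [F1, h] at hs
    · exact hmem q.2 (m q.1 q.2) _ (Or.inl (Or.inr ⟨q.1, rfl⟩))
    · obtain ⟨q, _, j, _, rfl⟩ := mem_iUnion₂.1 hs
      exact hmem q.2 j _ (Or.inr ⟨q.1, rfl⟩)
  · refine Set.Finite.union (Set.Finite.union ?_ ?_) ?_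
    · by_cases h : inf ∈ K <;> simp [F1, h]
    · exact (hE.subset fun q hq => hq.1).image _
    · refine hE.biUnion fun q _ => ?_
      exact ((Set.finite_lt_nat (m q.1 q.2)).subset fun j hj => hj.1).image _
  · intro x hx
    rcases x with _ | ⟨a, k⟩ | ⟨a, k, j⟩
    · refine ⟨Dset n, Or.inl (Or.inl ?_), Or.inl rfl⟩
      simp [F1, hx]
    · by_cases hk : n ≤ k
      · have hinf : inf ∈ K := by
          by_contra h
          exact hn2 h a k hk hx
        refine ⟨Dset n, Or.inl (Or.inl ?_), Or.inr ⟨a, k, hk, rfl⟩⟩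
        simp [F1, hinf]
      · refine ⟨Cset a k (m a k), Or.inl (Or.inr ⟨(a, k), ⟨Or.inr ⟨not_le.1 hk, hx⟩, hx⟩, rfl⟩),
          Or.inl rfl⟩
    · have hqE : (a, k) ∈ E := Or.inl ⟨j, hx⟩
      by_cases hj : m a k ≤ j
      · have hmid : mid a k ∈ K := by
          by_contra h
          exact hm2 a k h j hj hx
        exact ⟨Cset a k (m a k), Or.inl (Or.inr ⟨(a, k), ⟨hqE, hmid⟩, rfl⟩),
          Or.inr ⟨j, hj, rfl⟩⟩
      · refine ⟨{iso a k j}, Or.inr (mem_iUnion₂.2 ⟨(a, k), hqE, j, ⟨not_le.1 hj, hx⟩, rfl⟩), rfl⟩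
  · intro x hx
    obtain ⟨s, hs, hxs⟩ := hx
    rcases hs with (hs | ⟨q, ⟨_, hq⟩, rfl⟩) | hs
    · by_cases h : inf ∈ K
      · simp only [F1, h, if_true, mem_singleton_iff] at hs
        subst hs
        exact hn1 h hxs
      · simp [F1, h] at hs
    · exact hm1 _ _ hq hxs
    · obtain ⟨q, _, j, hj, rfl⟩ := mem_iUnion₂.1 hs
      rw [mem_singleton_iff.1 hxs]
      exact hKU hj.2

lemma isAlephSpace_Pt : IsAlephSpace Pt :=
  ⟨inferInstance, fun n => Net n.unpair.1 n.unpair.2, fun _ => net_locallyFinite _ _, net_isKNetwork⟩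

section Ascoli

/-- evaluation at a point, as a map to `C(K, ℝ)` -/
def ev {X : Type w} [TopologicalSpace X] (K : Set C(X, ℝ)) (x : X) : C(K, ℝ) :=
  ⟨fun f => (f : C(X, ℝ)) x, (continuous_eval_const x).comp continuous_subtype_val⟩

lemma ev_tendsto {X : Type w} [TopologicalSpace X] [T2Space X] (K : Set C(X, ℝ)) (u : ℕ → X) (x : X)
    (hu : Tendsto u atTop (𝓝 x)) : Tendsto (fun n => ev K (u n)) atTop (𝓝 (ev K x)) := by
  let C : Set X := insert x (range u)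
  have hC : IsCompact C := hu.isCompact_insert_range
  have : CompactSpace C := isCompact_iff_compactSpace.1 hC
  have hcont : Continuous (fun p : C × K => (p.2 : C(X, ℝ)) (p.1 : X)) := by
    have h1 : Continuous (fun p : C × K => (((p.2 : C(X, ℝ)).restrict C : C(C, ℝ)), p.1)) :=
      ((ContinuousMap.continuous_restrict C).comp
        (continuous_subtype_val.comp continuous_snd)).prodMk continuous_fst
    exact (continuous_eval (F := C(C, ℝ)) (X := C) (Y := ℝ)).comp h1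
  let g : C(C, C(K, ℝ)) := ContinuousMap.curry ⟨_, hcont⟩
  have h2 : Tendsto (fun n => (⟨u n, Or.inr ⟨n, rfl⟩⟩ : C)) atTop (𝓝 ⟨x, Or.inl rfl⟩) :=
    tendsto_subtype_rng.2 hu
  have h3 := (g.continuous.tendsto (⟨x, Or.inl rfl⟩ : C)).comp h2
  exact h3

lemma tendsto_iso (a : ℕ → ℝ) (k : ℕ) : Tendsto (fun j => iso a k j) atTop (𝓝 (mid a k)) := by
  rw [tendsto_nhds]
  intro s hs hx
  obtain ⟨m, hm⟩ := ((isOpen_iff s).1 hs).2 a k hx
  exact mem_atTop_sets.2 ⟨m, hm⟩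

lemma tendsto_mid (a : ℕ → ℕ → ℝ) (k : ℕ → ℕ) (hk : ∀ n, n ≤ k n) :
    Tendsto (fun n => mid (a n) (k n)) atTop (𝓝 inf) := by
  rw [tendsto_nhds]
  intro s hs hx
  obtain ⟨m, hm⟩ := ((isOpen_iff s).1 hs).1 hx
  exact mem_atTop_sets.2 ⟨m, fun n hn => hm _ _ (hn.trans (hk n))⟩

lemma continuous_of_seq {Y : Type w} [TopologicalSpace Y] (φ : Pt → Y)
    (h : ∀ (u : ℕ → Pt) (x : Pt), Tendsto u atTop (𝓝 x) → Tendsto (fun n => φ (u n)) atTop (𝓝 (φ x))) :
    Continuous φ := by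
  rw [continuous_def]
  intro s hs
  rw [isOpen_iff]
  constructor
  · intro h0
    by_contra hcon
    push Not at hcon
    choose a k hk hak using hcon
    have h1 := h _ _ (tendsto_mid a k hk)
    have h2 := h1.eventually (hs.mem_nhds h0)
    obtain ⟨n, hn⟩ := h2.exists
    exact hak n hn
  · intro a k h0
    have h1 := h _ _ (tendsto_iso a k)
    have h2 := h1.eventually (hs.mem_nhds h0)
    exact eventually_atTop.1 h2

lemma isAscoliSpace_Pt : IsAscoliSpace Pt := by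
  intro K hK
  have : CompactSpace K := isCompact_iff_compactSpace.1 hK
  have hφ : Continuous (ev K) := continuous_of_seq _ (ev_tendsto K)
  have h1 : Continuous (fun p : K × Pt => (ev K p.2, p.1)) :=
    (hφ.comp continuous_snd).prodMk continuous_fst
  exact (continuous_eval (F := C(K, ℝ)) (X := K) (Y := ℝ)).comp h1

end Ascoli

section NotCM

lemma exists_seq {H : Type w} [TopologicalSpace H] [SecondCountableTopology H] (κ : ℝ → H)
    (T : Set ℝ) (hT : ¬ T.Countable) :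
    ∃ (a : ℕ → ℝ) (h : H), Function.Injective a ∧ (∀ n, a n ∈ T) ∧
      Tendsto (fun n => κ (a n)) atTop (𝓝 h) := by
  classical
  -- a condensation point
  obtain ⟨t₀, ht₀⟩ : ∃ t₀, ∀ O ∈ 𝓝 (κ t₀), ¬ {s | s ∈ T ∧ κ s ∈ O}.Countable := by
    by_contra hcon
    push Not at hcon
    apply hT
    have : T ⊆ ⋃ b ∈ {b | b ∈ countableBasis H ∧ {s | s ∈ T ∧ κ s ∈ b}.Countable},
        {s | s ∈ T ∧ κ s ∈ b} := by
      intro t ht
      obtain ⟨O, hO, hOc⟩ := hcon t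
      obtain ⟨b, hb, htb, hbO⟩ := (isBasis_countableBasis H).mem_nhds_iff.1 hO
      refine mem_iUnion₂.2 ⟨b, ⟨hb, hOc.mono ?_⟩, ht, htb⟩
      exact fun s hs => ⟨hs.1, hbO hs.2⟩
    refine Set.Countable.mono this (Set.Countable.biUnion ?_ fun b hb => hb.2)
    exact (countable_countableBasis H).mono fun b hb => hb.1
  obtain ⟨O, hO⟩ := (𝓝 (κ t₀)).exists_antitone_basis
  obtain ⟨f, hf1, hf2⟩ := exists_seq_of_forall_finset_exists
    (fun q : ℕ × ℝ => q.2 ∈ T ∧ κ q.2 ∈ O q.1) (fun q r => q.1 < r.1 ∧ q.2 ≠ r.2) (by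
      intro F _
      obtain ⟨N, hN⟩ : ∃ N, ∀ q ∈ F, q.1 < N := by
        refine ⟨F.sup Prod.fst + 1, fun q hq => ?_⟩
        exact Nat.lt_succ_of_le (Finset.le_sup (f := Prod.fst) hq)
      have h1 : {s | s ∈ T ∧ κ s ∈ O N}.Infinite := fun h => ht₀ _ (hO.1.mem_of_mem trivial) h.countable
      obtain ⟨s, hs, hsF⟩ := h1.exists_notMem_finset (F.image Prod.snd)
      refine ⟨(N, s), hs, fun q hq => ⟨hN q hq, ?_⟩⟩
      rintro rfl
      exact hsF (Finset.mem_image_of_mem _ hq))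
  have hmono : StrictMono fun n => (f n).1 := fun m n hmn => (hf2 m n hmn).1
  refine ⟨fun n => (f n).2, κ t₀, ?_, fun n => (hf1 n).1, ?_⟩
  · intro m n hmn
    by_contra hne
    rcases lt_or_gt_of_ne hne with h | h
    · exact (hf2 m n h).2 hmn
    · exact (hf2 n m h).2 hmn.symm
  · rw [hO.1.tendsto_right_iff]
    intro i _
    filter_upwards [Filter.eventually_ge_atTop i] with n hn
    exact hO.2 (hn.trans (hmono.id_le n)) (hf1 n).2

/-- the index of `t` in the sequence `a` (junk value `0` if absent) -/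
noncomputable def idx (t : ℝ) (a : ℕ → ℝ) (_ : ℕ) : ℕ := sInf {i | a i = t}

lemma idx_self (a : ℕ → ℝ) (ha : Function.Injective a) (i k : ℕ) : idx (a i) a k = i := by
  have : {j | a j = a i} = {i} := by
    ext j
    simp [ha.eq_iff]
  rw [idx, this]
  simp

lemma exists_compact {X : Type w} [TopologicalSpace X] {Z : Type u} {Y : Type v}
    [TopologicalSpace Z] [MetricSpace Y] (e : X → C(Z, Y)) (he : IsEmbedding e) (x : X) (U : Set X)
    (hU : U ∈ 𝓝 x) : ∃ (K : Compacts Z) (n : ℕ), ∀ y,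
      (∀ z ∈ K, dist (e x z) (e y z) < 1 / ((n : ℝ) + 1)) → y ∈ U := by
  have hb := nhds_basis_uniformity' ((Metric.uniformity_basis_dist (α := Y)).compactConvergenceUniformity (α := Z))
    (x := e x)
  rw [he.isInducing.nhds_eq_comap x] at hU
  obtain ⟨⟨K, ε⟩, ⟨hK, hε⟩, hsub⟩ := (hb.comap e).mem_iff.1 hU
  obtain ⟨n, hn⟩ := exists_nat_one_div_lt hε
  refine ⟨⟨K, hK⟩, n, fun y hy => hsub ?_⟩
  intro z hz
  exact (hy z hz).trans hn

lemma nhds_compact {X : Type w} [TopologicalSpace X] {Z : Type u} {Y : Type v}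
    [TopologicalSpace Z] [MetricSpace Y] (e : X → C(Z, Y)) (he : Continuous e) (x : X) (K : Set Z)
    (hK : IsCompact K) (n : ℕ) :
    {y | ∀ z ∈ K, dist (e x z) (e y z) < 1 / ((n : ℝ) + 1)} ∈ 𝓝 x := by
  have hb := nhds_basis_uniformity' ((Metric.uniformity_basis_dist (α := Y)).compactConvergenceUniformity (α := Z))
    (x := e x)
  have h1 := hb.mem_of_mem (i := (K, 1 / ((n : ℝ) + 1))) ⟨hK, by positivity⟩
  exact he.continuousAt.preimage_mem_nhds h1

lemma not_isCMSpace_Pt : ¬ IsCMSpace.{u, v} Pt := by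
  rintro ⟨Z, Y, _, _, _, _, _, e, he⟩
  letI := metrizableSpaceMetric Z
  letI := metrizableSpaceMetric Y
  have : SecondCountableTopology Z := UniformSpace.secondCountable_of_separable Z
  have hU : ∀ t : ℝ, Uset 0 (idx t) ∈ 𝓝 inf := fun t => (isClopen_Uset _ _).2.mem_nhds (Or.inl rfl)
  choose K n hKn using fun t : ℝ => exists_compact e he inf _ (hU t)
  obtain ⟨N, hN⟩ : ∃ N, ¬ {t | n t = N}.Countable := by
    by_contra hcon
    push Not at hcon
    have h1 : (⋃ N, {t : ℝ | n t = N}).Countable := Set.countable_iUnion hcon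
    have h2 : (⋃ N, {t : ℝ | n t = N}) = Set.univ := by
      ext t; simp
    rw [h2] at h1
    exact Cardinal.not_countable_real h1
  obtain ⟨a, h, ha, haT, hah⟩ := exists_seq K _ hN
  have hS : IsCompact (insert h (range fun i => K (a i))) := hah.isCompact_insert_range
  have hL := Compacts.isCompact_biUnion_coe_of_isCompact hS
  have hV := nhds_compact e he.continuous inf _ hL N
  obtain ⟨V, hV1, hV2, hV3⟩ := mem_nhds_iff.1 hV
  obtain ⟨k, g, hg⟩ := exists_Uset_subset V hV2 hV3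
  have h1 : iso a k (g a k) ∈ Uset k g := Or.inr (Or.inr ⟨a, k, g a k, le_rfl, le_rfl, rfl⟩)
  have h2 := hV1 (hg h1)
  have h3 : ∀ i, i ≤ g a k := by
    intro i
    have h4 : iso a k (g a k) ∈ Uset 0 (idx (a i)) := by
      apply hKn (a i)
      intro z hz
      have h5 := haT i
      rw [mem_ofPred_eq] at h5
      rw [h5]
      apply h2
      exact mem_biUnion (Or.inr ⟨i, rfl⟩) hz
    simp only [Uset, mem_ofPred_eq, iso.injEq, reduceCtorEq, and_false, exists_false,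
          false_or] at h4
    obtain ⟨b, l, j, _, hj, rfl, rfl, rfl⟩ := h4
    rwa [idx_self a ha] at hj
  have := h3 (g a k + 1)
  omega

end NotCM

/-- There is an Ascoli ℵ-space that is not a `C[M]`-space. -/
theorem result : ∃ (X : Type) (_ : TopologicalSpace X),
    IsAscoliSpace X ∧ IsAlephSpace X ∧ ¬ IsCMSpace.{u, v} X :=
  ⟨Pt, inferInstance, isAscoliSpace_Pt, isAlephSpace_Pt, not_isCMSpace_Pt⟩

end Pool.Agent.Results.MP_36ad39_gt.AscoliAlephNotCM
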